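import Pool.Agent.Helper47.SR.Goals

/-!
# Packets SR-KKA and SR-KKB (MP_0130f7_co, helper47): Kruskal–Katona in ratio form
-/

namespace Pool.Agent.Helper68.SR

open Finset Finset.Colex
open scoped FinsetFamily

variable {n : ℕ}

/-- Initial segments of every size exist. -/
theorem exists_initSeg_card (n r N : ℕ) (hN : N ≤ n.choose r) :
    ∃ 𝒞 : Finset (Finset (Fin n)), IsInitSeg 𝒞 r ∧ #𝒞 = N := by
  induction N with
  | zero => exact ⟨∅, isInitSeg_empty, rfl⟩
  | succ N ih =>
    obtain ⟨𝒞, h𝒞, hc⟩ := ih (by omega)
    have hne : ((powersetCard r (univ : Finset (Fin n))) \ 𝒞).Nonempty := by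
      rw [← Finset.card_pos]
      have h1 := Finset.le_card_sdiff 𝒞 (powersetCard r (univ : Finset (Fin n)))
      rw [card_powersetCard, Finset.card_univ, Fintype.card_fin, hc] at h1
      omega
    obtain ⟨s, hs, hmin⟩ := Finset.exists_min_image _ (fun t => toColex t) hne
    rw [Finset.mem_sdiff, mem_powersetCard] at hs
    refine ⟨insert s 𝒞, ⟨?_, ?_⟩, ?_⟩
    · intro t ht
      rw [Finset.mem_coe, Finset.mem_insert] at ht
      rcases ht with rfl | ht
      · exact hs.1.2
      · exact h𝒞.1 ht
    · intro t u ht hu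
      rw [Finset.mem_insert] at ht ⊢
      by_contra hcon
      rw [not_or] at hcon
      have hu' : u ∈ (powersetCard r (univ : Finset (Fin n))) \ 𝒞 := by
        rw [Finset.mem_sdiff, mem_powersetCard]
        exact ⟨⟨subset_univ _, hu.2⟩, hcon.2⟩
      have h2 := hmin u hu'
      rcases ht with rfl | ht
      · exact absurd hu.1 (not_lt.2 h2)
      · exact hcon.2 (h𝒞.2 ht hu)
    · rw [Finset.card_insert_of_notMem hs.2, hc]

/-- The `r`-subsets of the first `w` points. -/
def firstSets (n w r : ℕ) : Finset (Finset (Fin n)) :=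
  powersetCard r ((univ : Finset (Fin n)).filter (fun x : Fin n => x.val < w))

theorem card_first (n w : ℕ) (hw : w ≤ n) :
    #((univ : Finset (Fin n)).filter (fun x : Fin n => x.val < w)) = w := by
  have h : ((univ : Finset (Fin n)).filter (fun x : Fin n => x.val < w)).map Fin.valEmbedding =
      range w := by
    ext x
    simp only [mem_map, mem_filter, mem_univ, true_and, mem_range]
    constructor
    · rintro ⟨a, ha, rfl⟩
      exact ha
    · intro hx
      exact ⟨⟨x, by omega⟩, hx, rfl⟩
  rw [← Finset.card_map Fin.valEmbedding, h, card_range]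

theorem card_firstSets (n w r : ℕ) (hw : w ≤ n) : #(firstSets n w r) = w.choose r := by
  rw [firstSets, card_powersetCard, card_first n w hw]

theorem mem_firstSets {w r : ℕ} {s : Finset (Fin n)} :
    s ∈ firstSets n w r ↔ (∀ x ∈ s, (x : ℕ) < w) ∧ #s = r := by
  rw [firstSets, mem_powersetCard]
  constructor
  · rintro ⟨h1, h2⟩
    exact ⟨fun x hx => (mem_filter.1 (h1 hx)).2, h2⟩
  · rintro ⟨h1, h2⟩
    exact ⟨fun x hx => mem_filter.2 ⟨mem_univ _, h1 x hx⟩, h2⟩

theorem isInitSeg_firstSets (n w r : ℕ) : IsInitSeg (firstSets n w r) r := by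
  refine ⟨fun s hs => (mem_firstSets.1 hs).2, ?_⟩
  intro s t hs ht
  rw [mem_firstSets] at hs ⊢
  refine ⟨?_, ht.2⟩
  intro x hx
  have h1 : toColex (image Fin.val t) < toColex (image Fin.val s) := by
    rw [toColex_image_lt_toColex_image Fin.val_strictMono]
    exact ht.1
  have h2 := Colex.forall_lt_mono h1.le (a := w) (by
    intro b hb
    rw [mem_image] at hb
    obtain ⟨a, ha, rfl⟩ := hb
    exact hs.1 a ha)
  exact h2 x (mem_image_of_mem _ hx)

/-- An initial segment with at most `C(w, r)` members lives on the first `w` points. -/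
theorem subset_first {w r : ℕ} (hw : w ≤ n) {𝒞 : Finset (Finset (Fin n))} (h : IsInitSeg 𝒞 r)
    (hc : #𝒞 ≤ w.choose r) : 𝒞 ⊆ firstSets n w r := by
  rcases h.total (isInitSeg_firstSets n w r) with h1 | h1
  · exact h1
  · have h2 : firstSets n w r = 𝒞 :=
      Finset.eq_of_subset_of_card_le h1 (by rw [card_firstSets n w r hw]; exact hc)
    rw [h2]

theorem first_subset {w r : ℕ} (hw : w ≤ n) {𝒞 : Finset (Finset (Fin n))} (h : IsInitSeg 𝒞 r)
    (hc : w.choose r ≤ #𝒞) : firstSets n w r ⊆ 𝒞 := by
  rcases h.total (isInitSeg_firstSets n w r) with h1 | h1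
  · have h2 : 𝒞 = firstSets n w r :=
      Finset.eq_of_subset_of_card_le h1 (by rw [card_firstSets n w r hw]; exact hc)
    rw [← h2]
  · exact h1

/-- Local LYM inequality for a family on the first `w` points. -/
theorem lym_first {w r : ℕ} (hw : w ≤ n) {𝒞 : Finset (Finset (Fin n))}
    (h : 𝒞 ⊆ firstSets n w r) : r * #𝒞 ≤ (w - r + 1) * #(∂ 𝒞) := by
  classical
  have key : #𝒞 * r ≤ #(∂ 𝒞) * (w - r + 1) := by
    refine Finset.card_mul_le_card_mul (fun s t : Finset (Fin n) => t ⊆ s) ?_ ?_
    · intro s hs
      have hs' := mem_firstSets.1 (h hs)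
      rw [← hs'.2, ← Finset.card_image_of_injOn (s := s) (f := fun a => s.erase a)
        (Finset.erase_injOn s)]
      refine Finset.card_le_card ?_
      intro t ht
      rw [mem_image] at ht
      obtain ⟨a, ha, rfl⟩ := ht
      rw [Finset.mem_bipartiteAbove]
      exact ⟨erase_mem_shadow hs ha, erase_subset _ _⟩
    · intro t ht
      obtain ⟨s₀, hs₀, a₀, ha₀, rfl⟩ := mem_shadow_iff.1 ht
      have hs₀' := mem_firstSets.1 (h hs₀)
      set t := s₀.erase a₀ with ht_def
      have htc : #t + 1 = r := by
        rw [ht_def, Finset.card_erase_add_one ha₀, hs₀'.2]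
      have hpos : 0 < r := by omega
      set V := (univ : Finset (Fin n)).filter (fun x : Fin n => x.val < w) with hV
      have htV : t ⊆ V := by
        intro x hx
        exact mem_filter.2 ⟨mem_univ _, hs₀'.1 x (Finset.mem_of_mem_erase hx)⟩
      have hsub : Finset.bipartiteBelow (fun s t : Finset (Fin n) => t ⊆ s) 𝒞 t ⊆
          (V \ t).image (fun a => insert a t) := by
        intro s hs
        rw [Finset.mem_bipartiteBelow] at hs
        have hs' := mem_firstSets.1 (h hs.1)
        have hcard : #(s \ t) = 1 := by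
          rw [Finset.card_sdiff_of_subset hs.2]
          omega
        obtain ⟨a, ha⟩ := Finset.card_eq_one.1 hcard
        have has : a ∈ s \ t := by rw [ha]; exact mem_singleton_self a
        rw [mem_image]
        refine ⟨a, ?_, ?_⟩
        · rw [Finset.mem_sdiff] at has ⊢
          exact ⟨mem_filter.2 ⟨mem_univ _, hs'.1 a has.1⟩, has.2⟩
        · have := Finset.sdiff_union_of_subset hs.2
          rw [ha] at this
          rw [Finset.insert_eq]
          exact this
      refine (Finset.card_le_card hsub).trans (Finset.card_image_le.trans ?_)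
      rw [Finset.card_sdiff_of_subset htV, hV, card_first n w hw]
      omega
  nlinarith [key]

/-- **Kruskal–Katona, ratio form.** -/
theorem kk_ratio {w r : ℕ} {𝒜 : Finset (Finset (Fin n))}
    (h𝒜 : (𝒜 : Set (Finset (Fin n))).Sized r) (hc : #𝒜 ≤ w.choose r) :
    r * #𝒜 ≤ (w - r + 1) * #(∂ 𝒜) := by
  classical
  rcases le_or_gt w n with hw | hw
  · have hle : #𝒜 ≤ n.choose r := by
      have := h𝒜.card_le
      rwa [Fintype.card_fin] at this
    obtain ⟨𝒞, h𝒞, hcard⟩ := exists_initSeg_card n r #𝒜 hle
    have h1 := kruskal_katona h𝒜 hcard.le h𝒞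
    have h2 := lym_first hw (subset_first hw h𝒞 (by rw [hcard]; exact hc))
    rw [hcard] at h2
    exact h2.trans (Nat.mul_le_mul_left _ h1)
  · have h3 : 𝒜 ⊆ firstSets n n r := fun s hs =>
      mem_firstSets.2 ⟨fun x _ => x.2, h𝒜 hs⟩
    have h4 := lym_first le_rfl h3
    refine h4.trans (Nat.mul_le_mul_right _ ?_)
    omega

open Pool.Agent.Helper47.SR

theorem goal_KKB : Goal_KKB := by
  classical
  intro n m w hm hw S hS hc
  have hsz : (S : Set (Finset (Fin n))).Sized m := fun s hs => (mem_powersetCard.1 (hS hs)).2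
  have hszc : (Sᶜˢ : Set (Finset (Fin n))).Sized (n - m) := by
    have := hsz.compls
    rwa [Fintype.card_fin] at this
  have h1 := kk_ratio (w := w) hszc (by rw [card_compls]; exact hc)
  rw [card_compls, shadow_compls, card_compls] at h1
  refine h1.trans (Nat.mul_le_mul_left _ (Finset.card_le_card ?_))
  intro B hB
  rw [mem_upShadow_iff] at hB
  obtain ⟨s, hs, a, ha, rfl⟩ := hB
  rw [up, mem_filter, mem_powersetCard]
  refine ⟨⟨subset_univ _, by rw [card_insert_of_notMem ha, hsz hs]⟩, a, mem_insert_self _ _, ?_⟩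
  rw [Finset.erase_insert ha]
  exact hs

theorem goal_KKA : Goal_KKA := by
  classical
  intro n m z hm hmz Y hY hc
  have hszY : (Y : Set (Finset (Fin n))).Sized m := fun s hs => (mem_powersetCard.1 (hY hs)).2
  set D := dn m Y with hD
  have hszD : (D : Set (Finset (Fin n))).Sized (m + 1) := by
    intro s hs
    have h1 : s ∈ D := hs
    rw [hD, dn, mem_filter, mem_powersetCard] at h1
    exact h1.1.2
  have hsh : ∂ D ⊆ Y := by
    intro t ht
    obtain ⟨s, hs, a, ha, rfl⟩ := mem_shadow_iff.1 ht
    rw [hD, dn, mem_filter] at hs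
    exact hs.2 a ha
  have hDc : #D ≤ z.choose (m + 1) := by
    by_contra hcon
    push Not at hcon
    have hDn : #D ≤ n.choose (m + 1) := by
      have := hszD.card_le
      rwa [Fintype.card_fin] at this
    have hzn : z ≤ n := by
      by_contra hzn
      push Not at hzn
      have := Nat.choose_le_choose (m + 1) hzn.le
      omega
    obtain ⟨𝒞, h𝒞, hcard⟩ := exists_initSeg_card n (m + 1) (z.choose (m + 1) + 1) (by omega)
    have h1 := kruskal_katona hszD (by omega : #𝒞 ≤ #D) h𝒞
    have h2 := first_subset hzn h𝒞 (by omega)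
    -- the extra set
    have h3 : ∃ s ∈ 𝒞, s ∉ firstSets n z (m + 1) := by
      by_contra h
      push Not at h
      have := Finset.card_le_card (fun s hs => h s hs : 𝒞 ⊆ firstSets n z (m + 1))
      rw [card_firstSets n z (m + 1) hzn] at this
      omega
    obtain ⟨s, hs, hsn⟩ := h3
    have hsc : #s = m + 1 := h𝒞.1 hs
    have h4 : ∃ x ∈ s, z ≤ (x : ℕ) := by
      by_contra h
      push Not at h
      exact hsn (mem_firstSets.2 ⟨h, hsc⟩)
    obtain ⟨x, hx, hxz⟩ := h4
    obtain ⟨y, hy, hyx⟩ : ∃ y ∈ s, y ≠ x := by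
      have : 1 < #s := by omega
      exact Finset.exists_mem_ne this x
    have h5 : s.erase y ∈ ∂ 𝒞 := erase_mem_shadow hs hy
    have h6 : s.erase y ∉ firstSets n z m := by
      intro h
      have := (mem_firstSets.1 h).1 x (mem_erase.2 ⟨hyx.symm, hx⟩)
      omega
    -- all m-subsets of the first z points are in the shadow, if z > m
    rcases Nat.lt_or_ge m z with hlt | hge
    · have h7 : firstSets n z m ⊆ ∂ 𝒞 := by
        intro t ht
        have ht' := mem_firstSets.1 ht
        have h8 : ∃ a ∈ (univ : Finset (Fin n)).filter (fun x : Fin n => x.val < z), a ∉ t := by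
          by_contra h
          push Not at h
          have := Finset.card_le_card (fun a ha => h a ha :
            (univ : Finset (Fin n)).filter (fun x : Fin n => x.val < z) ⊆ t)
          rw [card_first n z hzn] at this
          omega
        obtain ⟨a, ha, hat⟩ := h8
        rw [mem_shadow_iff]
        refine ⟨insert a t, h2 (mem_firstSets.2 ⟨?_, ?_⟩), a, mem_insert_self _ _,
          Finset.erase_insert hat⟩
        · intro b hb
          rw [mem_insert] at hb
          rcases hb with rfl | hb
          · exact (mem_filter.1 ha).2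
          · exact ht'.1 b hb
        · rw [card_insert_of_notMem hat, ht'.2]
      have h9 : #(insert (s.erase y) (firstSets n z m)) ≤ #(∂ 𝒞) := by
        refine Finset.card_le_card ?_
        intro t ht
        rw [mem_insert] at ht
        rcases ht with rfl | ht
        · exact h5
        · exact h7 ht
      rw [card_insert_of_notMem h6, card_firstSets n z m hzn] at h9
      have := Finset.card_le_card hsh
      omega
    · have hzm : z = m := by omega
      subst hzm
      -- the shadow has at least two elements
      have h9 : s.erase x ∈ ∂ 𝒞 := erase_mem_shadow hs hx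
      have h10 : #({s.erase y, s.erase x} : Finset (Finset (Fin n))) ≤ #(∂ 𝒞) := by
        refine Finset.card_le_card ?_
        intro t ht
        rw [mem_insert, mem_singleton] at ht
        rcases ht with rfl | rfl
        · exact h5
        · exact h9
      rw [Finset.card_pair (fun h => hyx (Finset.erase_injOn s hy hx h))] at h10
      have := Finset.card_le_card hsh
      rw [Nat.choose_self] at hc
      omega
  have h1 := kk_ratio (w := z) hszD hDc
  rcases Nat.lt_or_ge m z with hlt | hge
  · have h2 : z - (m + 1) + 1 = z - m := by omega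
    rw [h2] at h1
    exact h1.trans (Nat.mul_le_mul_left _ (Finset.card_le_card hsh))
  · have h3 : z.choose (m + 1) = 0 := Nat.choose_eq_zero_of_lt (by omega)
    have h4 : #D = 0 := by omega
    rw [h4]
    simp

end Pool.Agent.Helper68.SR
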